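import Pool.Agent.H987.Z.StB

/-! Resolvents and moments (leaf Z-B4 of helper987, written by helper784). -/

set_option autoImplicit false
set_option linter.unusedSectionVars false
set_option linter.deprecated false

open scoped BigOperators InnerProductSpace Topology
open Filter MeasureTheory

namespace Pool.Agent.H784.Z987

open Pool.Agent.Y662.TR (LL Cf Mw dv hu norm_dv ll_coord add_coord smul_coord)
open Pool.Agent.TH369.AN (Rz rz_eq rz_norm)

section E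

variable {X : Type} [NormedAddCommGroup X] [InnerProductSpace ℂ X] [CompleteSpace X]

/-- `1 - (i/s)(T - z)` -/
noncomputable def EE (T : X →L[ℂ] X) (z : ℂ) (s : ℝ) : X →L[ℂ] X :=
  (1 + Complex.I * z / s) • (1 : X →L[ℂ] X) + (-(Complex.I / s)) • T

theorem EE_apply (T : X →L[ℂ] X) (z : ℂ) (s : ℝ) (u : X) :
    EE T z s u = u - (Complex.I / s) • (T u - z • u) := by
  unfold EE
  simp only [ContinuousLinearMap.add_apply, ContinuousLinearMap.smul_apply,
    ContinuousLinearMap.one_apply]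
  module

theorem EE_norm (T : X →L[ℂ] X) (hT : IsSelfAdjoint T) (z : ℂ) (θ c : ℝ) (hθ : 0 < θ)
    (hc : 0 < c) (hz : θ ≤ z.im) (hb : ∀ u, ‖T u - z • u‖ ≤ c * ‖u‖) (u : X) :
    ‖EE T z (c ^ 2 / θ) u‖ ^ 2 ≤ (1 - θ ^ 2 / c ^ 2) * ‖u‖ ^ 2 := by
  have hs : 0 < c ^ 2 / θ := by positivity
  rw [EE_apply]
  set s : ℝ := c ^ 2 / θ with hsd
  rw [@norm_sub_sq ℂ]
  have h1 : RCLike.re ⟪u, (Complex.I / (s : ℂ)) • (T u - z • u)⟫_ℂ = z.im / s * ‖u‖ ^ 2 := by
    rw [inner_smul_right, inner_sub_right, inner_smul_right]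
    have h2 : (⟪u, T u⟫_ℂ).im = 0 := by
      have h3 := hT.isSymmetric
      have h4 := h3 u u
      have h5 : (starRingEnd ℂ) ⟪u, T u⟫_ℂ = ⟪u, T u⟫_ℂ := by
        rw [inner_conj_symm]
        exact h4
      exact Complex.conj_eq_iff_im.1 h5
    have h6 : ⟪u, u⟫_ℂ = ((‖u‖ ^ 2 : ℝ) : ℂ) := by
      rw [inner_self_eq_norm_sq_to_K]
      push_cast
      rfl
    rw [h6]
    have h7 : ⟪u, T u⟫_ℂ = ((⟪u, T u⟫_ℂ).re : ℂ) := by
      apply Complex.ext
      · simp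
      · simpa using h2
    rw [h7]
    generalize (⟪u, T u⟫_ℂ).re = r
    have h8 : Complex.I / (s : ℂ) * ((r : ℂ) - z * ((‖u‖ ^ 2 : ℝ) : ℂ)) =
        ((s⁻¹ : ℝ) : ℂ) * (Complex.I * ((r : ℂ) - z * ((‖u‖ ^ 2 : ℝ) : ℂ))) := by
      push_cast
      ring
    rw [h8]
    change (((s⁻¹ : ℝ) : ℂ) * (Complex.I * ((r : ℂ) - z * ((‖u‖ ^ 2 : ℝ) : ℂ)))).re = _
    rw [Complex.re_ofReal_mul]
    simp only [Complex.mul_re, Complex.I_re, Complex.I_im, Complex.sub_re, Complex.sub_im,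
      Complex.ofReal_re, Complex.ofReal_im, Complex.mul_im]
    ring
  rw [h1, norm_smul]
  have h9 : ‖Complex.I / (s : ℂ)‖ = 1 / s := by
    rw [norm_div, Complex.norm_I, Complex.norm_real, Real.norm_eq_abs, abs_of_pos hs]
  rw [h9, mul_pow]
  have h10 : ‖T u - z • u‖ ^ 2 ≤ c ^ 2 * ‖u‖ ^ 2 := by
    rw [← mul_pow]
    exact pow_le_pow_left₀ (norm_nonneg _) (hb u) 2
  have h11 : (1 / s) ^ 2 * ‖T u - z • u‖ ^ 2 ≤ (1 / s) ^ 2 * (c ^ 2 * ‖u‖ ^ 2) :=
    mul_le_mul_of_nonneg_left h10 (by positivity)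
  have h12 : θ / s * ‖u‖ ^ 2 ≤ z.im / s * ‖u‖ ^ 2 := by
    apply mul_le_mul_of_nonneg_right _ (by positivity)
    exact div_le_div_of_nonneg_right hz hs.le
  have h13 : θ / s = θ ^ 2 / c ^ 2 := by
    rw [hsd]
    field_simp
  have h14 : (1 / s) ^ 2 * (c ^ 2 * ‖u‖ ^ 2) = θ ^ 2 / c ^ 2 * ‖u‖ ^ 2 := by
    rw [hsd]
    field_simp
  rw [h13] at h12
  rw [h14] at h11
  linarith

theorem EE_pow_norm (T : X →L[ℂ] X) (hT : IsSelfAdjoint T) (z : ℂ) (θ c q : ℝ) (hθ : 0 < θ)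
    (hc : 0 < c) (hq : 0 ≤ q) (hq2 : 1 - θ ^ 2 / c ^ 2 ≤ q ^ 2) (hz : θ ≤ z.im)
    (hb : ∀ u, ‖T u - z • u‖ ≤ c * ‖u‖) (n : ℕ) (u : X) :
    ‖(EE T z (c ^ 2 / θ) ^ n) u‖ ≤ q ^ n * ‖u‖ := by
  induction n with
  | zero => simp
  | succ n ih =>
    rw [pow_succ', ContinuousLinearMap.mul_apply]
    set v := (EE T z (c ^ 2 / θ) ^ n) u with hv
    have h1 := EE_norm T hT z θ c hθ hc hz hb v
    have h2 : ‖EE T z (c ^ 2 / θ) v‖ ^ 2 ≤ (q * ‖v‖) ^ 2 := by
      refine h1.trans ?_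
      rw [mul_pow]
      exact mul_le_mul_of_nonneg_right hq2 (by positivity)
    have h3 : ‖EE T z (c ^ 2 / θ) v‖ ≤ q * ‖v‖ :=
      (pow_le_pow_iff_left₀ (norm_nonneg _) (by positivity) two_ne_zero).1 h2
    refine h3.trans ?_
    rw [pow_succ', mul_assoc]
    exact mul_le_mul_of_nonneg_left ih hq

theorem EE_iter (T : X →L[ℂ] X) (z : ℂ) (s : ℝ) (u φ : X) (h : T u - z • u = φ) (n : ℕ) :
    u = (EE T z s ^ n) u + (Complex.I / s) • ∑ k ∈ Finset.range n, (EE T z s ^ k) φ := by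
  induction n with
  | zero => simp
  | succ n ih =>
    rw [Finset.sum_range_succ, pow_succ, ContinuousLinearMap.mul_apply, EE_apply, h, map_sub,
      map_smul, smul_add]
    nth_rw 1 [ih]
    abel

end E

section mom

variable {ι κ : Type}

theorem mom_EE (T : LL ι →L[ℂ] LL ι) (S : LL κ →L[ℂ] LL κ) (x : ι) (y : κ) (t : ℕ)
    (h : ∀ k ≤ t, (T ^ k) (dv x) x = (S ^ k) (dv y) y) (z : ℂ) (s : ℝ) (k : ℕ) :
    ∀ j : ℕ, j + k ≤ t →
      (T ^ j * EE T z s ^ k) (dv x) x = (S ^ j * EE S z s ^ k) (dv y) y := by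
  induction k with
  | zero =>
    intro j hj
    rw [pow_zero, pow_zero, mul_one, mul_one]
    exact h j (by omega)
  | succ k ih =>
    intro j hj
    have h1 : ∀ {μ : Type} (A : LL μ →L[ℂ] LL μ), A ^ j * EE A z s ^ (k + 1) =
        (1 + Complex.I * z / s) • (A ^ j * EE A z s ^ k) +
          (-(Complex.I / s)) • (A ^ (j + 1) * EE A z s ^ k) := by
      intro μ A
      rw [pow_succ' (EE A z s), ← mul_assoc]
      have h2 : A ^ j * EE A z s = (1 + Complex.I * z / s) • A ^ j +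
          (-(Complex.I / s)) • A ^ (j + 1) := by
        unfold EE
        rw [mul_add, mul_smul_comm, mul_smul_comm, mul_one, pow_succ]
      rw [h2, add_mul, smul_mul_assoc, smul_mul_assoc]
    rw [h1 T, h1 S]
    simp only [ContinuousLinearMap.add_apply, ContinuousLinearMap.smul_apply, add_coord,
      smul_coord]
    rw [ih j (by omega), ih (j + 1) (by omega)]

/-- **B4** -/
theorem mom : Pool.Agent.H987.Z.S_mom := by
  intro θ R h δ hθ hR hh hδ
  set c : ℝ := h + R with hc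
  have hc0 : 0 < c := by positivity
  set q : ℝ := Real.sqrt (1 - θ ^ 2 / c ^ 2) with hq
  have hq0 : 0 ≤ q := Real.sqrt_nonneg _
  have hq1 : q < 1 := by
    rw [hq, Real.sqrt_lt' one_pos]
    have : 0 < θ ^ 2 / c ^ 2 := by positivity
    linarith
  have hlim : Tendsto (fun n : ℕ => q ^ n * (2 / θ)) atTop (𝓝 0) := by
    have := (tendsto_pow_atTop_nhds_zero_of_lt_one hq0 hq1).mul_const (2 / θ)
    simpa using this
  obtain ⟨n, hn⟩ := ((tendsto_order.1 hlim).2 δ hδ).exists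
  refine ⟨n, ?_⟩
  intro ι κ T S x y hT hS hTn hSn hm z hz hzR
  have hz0 : 0 < z.im := hθ.trans_le hz
  have hθc : θ ≤ c := by
    have h1 : z.im ≤ ‖z‖ := (le_abs_self _).trans (Complex.abs_im_le_norm z)
    linarith
  have hq2 : 1 - θ ^ 2 / c ^ 2 ≤ q ^ 2 := by
    rw [hq, Real.sq_sqrt]
    have : θ ^ 2 / c ^ 2 ≤ 1 := by
      rw [div_le_one (by positivity)]
      exact pow_le_pow_left₀ hθ.le hθc 2
    linarith
  have key : ∀ {μ : Type} (A : LL μ →L[ℂ] LL μ) (hA : IsSelfAdjoint A) (hAn : ‖A‖ ≤ h) (w : μ),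
      ‖Pool.Agent.H987.Z.Gr A z w w - (Complex.I / ((c ^ 2 / θ : ℝ) : ℂ)) *
        ∑ k ∈ Finset.range n, (EE A z (c ^ 2 / θ) ^ k) (dv w) w‖ ≤ q ^ n / θ := by
    intro μ A hA hAn w
    have hb : ∀ u, ‖A u - z • u‖ ≤ c * ‖u‖ := by
      intro u
      calc ‖A u - z • u‖ ≤ ‖A u‖ + ‖z • u‖ := norm_sub_le _ _
        _ ≤ h * ‖u‖ + R * ‖u‖ := by
          apply add_le_add
          · exact (A.le_opNorm u).trans (mul_le_mul_of_nonneg_right hAn (norm_nonneg _))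
          · rw [norm_smul]
            exact mul_le_mul_of_nonneg_right hzR (norm_nonneg _)
        _ = c * ‖u‖ := by rw [hc]; ring
    set u : LL μ := Rz A z (dv w) with hu
    have h1 : A u - z • u = dv w := rz_eq A hA z hz0.ne' (dv w)
    have h2 := EE_iter A z (c ^ 2 / θ) u (dv w) h1 n
    have h3 : ∀ m : ℕ, (∑ k ∈ Finset.range m, (EE A z (c ^ 2 / θ) ^ k) (dv w) : LL μ) w =
        ∑ k ∈ Finset.range m, (EE A z (c ^ 2 / θ) ^ k) (dv w) w := by
      intro m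
      induction m with
      | zero => simp
      | succ m ih => rw [Finset.sum_range_succ, Finset.sum_range_succ, add_coord, ih]
    have h4 : Pool.Agent.H987.Z.Gr A z w w = (EE A z (c ^ 2 / θ) ^ n) u w +
        (Complex.I / ((c ^ 2 / θ : ℝ) : ℂ)) *
          ∑ k ∈ Finset.range n, (EE A z (c ^ 2 / θ) ^ k) (dv w) w := by
      rw [← h3 n, ← smul_coord, ← add_coord, ← h2]
      rfl
    rw [h4, add_sub_cancel_right]
    refine (ll_coord _ w).trans ?_
    refine (EE_pow_norm A hA z θ c q hθ hc0 hq0 hq2 hz hb n u).trans ?_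
    have h5 : ‖u‖ ≤ 1 / θ := by
      have h6 := rz_norm A hA z hz0.ne' (dv w)
      rw [norm_dv, abs_of_pos hz0] at h6
      exact h6.trans (one_div_le_one_div_of_le hθ hz)
    calc q ^ n * ‖u‖ ≤ q ^ n * (1 / θ) := mul_le_mul_of_nonneg_left h5 (by positivity)
      _ = q ^ n / θ := by ring
  have hT1 := key T hT hTn x
  have hS1 := key S hS hSn y
  have hEq : ∑ k ∈ Finset.range n, (EE T z (c ^ 2 / θ) ^ k) (dv x) x =
      ∑ k ∈ Finset.range n, (EE S z (c ^ 2 / θ) ^ k) (dv y) y := by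
    apply Finset.sum_congr rfl
    intro k hk
    have h1 := mom_EE T S x y n hm z (c ^ 2 / θ) k 0 (by
      have := Finset.mem_range.1 hk
      omega)
    rwa [pow_zero, pow_zero, one_mul, one_mul] at h1
  rw [hEq] at hT1
  set W := (Complex.I / ((c ^ 2 / θ : ℝ) : ℂ)) *
    ∑ k ∈ Finset.range n, (EE S z (c ^ 2 / θ) ^ k) (dv y) y with hW
  have h5 : Pool.Agent.H987.Z.Gr T z x x - Pool.Agent.H987.Z.Gr S z y y =
      (Pool.Agent.H987.Z.Gr T z x x - W) - (Pool.Agent.H987.Z.Gr S z y y - W) := by ring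
  rw [h5]
  refine (norm_sub_le _ _).trans ?_
  have h6 : q ^ n * (2 / θ) = q ^ n / θ + q ^ n / θ := by ring
  linarith

end mom

end Pool.Agent.H784.Z987
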