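import Pool.Agent.H987.Z.StF

/-! Matrix elements (leaf Z-F5 of helper987, written by helper784). -/

set_option autoImplicit false
set_option linter.unusedVariables false

open scoped BigOperators InnerProductSpace Topology
open Filter MeasureTheory

namespace Pool.Agent.H784.Z987.HopL

open Pool.Agent.Y662.TR (LL dv dv_apply dv_self dv_ne)

/-- indicator of a point -/
noncomputable def dl {ι : Type} (a y : ι) : ℝ := open Classical in if y = a then 1 else 0

theorem dl_sum {ι : Type} (a : ι) : HasSum (dl a) 1 := by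
  classical
  have h : dl a = fun y => if y = a then (1 : ℝ) else 0 := by
    funext y
    unfold dl
    congr
  rw [h]
  exact hasSum_ite_eq a 1

theorem dl_nonneg {ι : Type} (a y : ι) : 0 ≤ dl a y := by
  unfold dl
  split_ifs <;> norm_num

theorem dl_norm {ι : Type} (a y : ι) : ‖dv y a‖ = dl a y := by
  classical
  rw [dv_apply]
  unfold dl
  by_cases h : a = y
  · rw [if_pos h, if_pos h.symm]
    simp
  · rw [if_neg h, if_neg (Ne.symm h)]
    simp

theorem dl_zero_or_one {ι : Type} (a y : ι) : dl a y = 0 ∨ dl a y = 1 := by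
  unfold dl
  split_ifs
  · exact Or.inr rfl
  · exact Or.inl rfl

theorem rpow_add_half {a b : ℝ} (ha : 0 ≤ a) (hb : 0 ≤ b) :
    (a + b) ^ (1 / 2 : ℝ) ≤ a ^ (1 / 2 : ℝ) + b ^ (1 / 2 : ℝ) := by
  rw [← Real.sqrt_eq_rpow, ← Real.sqrt_eq_rpow, ← Real.sqrt_eq_rpow]
  rw [Real.sqrt_le_left (by positivity)]
  have h1 := Real.sq_sqrt ha
  have h2 := Real.sq_sqrt hb
  have h3 : 0 ≤ √a * √b := by positivity
  nlinarith

theorem hop : Pool.Agent.H987.Z.S_hop := by
  intro d F _ φ c K hc hs hK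
  classical
  set S0 : ℝ := ∑' q, c q ^ (1 / 2 : ℝ) with hS0
  have hS0n : 0 ≤ S0 := tsum_nonneg fun q => Real.rpow_nonneg (hc q) _
  refine ⟨4 * d + S0 + 1, by positivity, ?_⟩
  rintro ⟨x, f⟩
  -- the finite part
  set A : ((Fin d → ℤ) × F) → ℝ := fun y => ∑ i : Fin d,
    (2 * dl ((x, f) : (Fin d → ℤ) × F) y + dl ((x + Pi.single i 1, f) : (Fin d → ℤ) × F) y +
      dl ((x - Pi.single i 1, f) : (Fin d → ℤ) × F) y) with hA
  have hAs : HasSum A (∑ _i : Fin d, (2 * 1 + 1 + 1 : ℝ)) := by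
    apply hasSum_sum
    intro i _
    exact (((dl_sum _).mul_left 2).add (dl_sum _)).add (dl_sum _)
  have hA0 : ∀ y, 0 ≤ A y := by
    intro y
    apply Finset.sum_nonneg
    intro i _
    have h1 := dl_nonneg ((x, f) : (Fin d → ℤ) × F) y
    have h2 := dl_nonneg ((x + Pi.single i 1, f) : (Fin d → ℤ) × F) y
    have h3 := dl_nonneg ((x - Pi.single i 1, f) : (Fin d → ℤ) × F) y
    linarith
  have hA1 : ∀ y, A y ^ (1 / 2 : ℝ) ≤ A y := by
    intro y
    obtain ⟨n, hn⟩ : ∃ n : ℕ, A y = n := by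
      have hi : ∀ i : Fin d, ∃ n : ℕ, (2 * dl ((x, f) : (Fin d → ℤ) × F) y +
          dl ((x + Pi.single i 1, f) : (Fin d → ℤ) × F) y +
          dl ((x - Pi.single i 1, f) : (Fin d → ℤ) × F) y) = n := by
        intro i
        rcases dl_zero_or_one ((x, f) : (Fin d → ℤ) × F) y with h1 | h1 <;>
        rcases dl_zero_or_one ((x + Pi.single i 1, f) : (Fin d → ℤ) × F) y with h2 | h2 <;>
        rcases dl_zero_or_one ((x - Pi.single i 1, f) : (Fin d → ℤ) × F) y with h3 | h3 <;>
        rw [h1, h2, h3]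
        · exact ⟨0, by norm_num⟩
        · exact ⟨1, by norm_num⟩
        · exact ⟨1, by norm_num⟩
        · exact ⟨2, by norm_num⟩
        · exact ⟨2, by norm_num⟩
        · exact ⟨3, by norm_num⟩
        · exact ⟨3, by norm_num⟩
        · exact ⟨4, by norm_num⟩
      choose m hm using hi
      refine ⟨∑ i, m i, ?_⟩
      simp only [hA]
      push_cast
      exact Finset.sum_congr rfl fun i _ => hm i
    rw [hn, ← Real.sqrt_eq_rpow]
    rcases Nat.eq_zero_or_pos n with h | h
    · rw [h]; simp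
    · rw [Real.sqrt_le_left (by positivity)]
      have : (1 : ℝ) ≤ n := by exact_mod_cast h
      nlinarith
  -- the infinite part
  set ι : F → (Fin d → ℤ) × F := fun q => (x, f * φ (Multiplicative.ofAdd x) q) with hι
  have hιi : Function.Injective ι := by
    intro q q' h
    simp only [hι, Prod.mk.injEq, true_and] at h
    exact (φ (Multiplicative.ofAdd x)).injective (mul_left_cancel h)
  set G : ((Fin d → ℤ) × F) → ℝ := fun y =>
    ‖∑' q : F, ((c q : ℝ) : ℂ) * dv y (ι q)‖ ^ (1 / 2 : ℝ) with hG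
  have hG1 : ∀ q, G (ι q) = c q ^ (1 / 2 : ℝ) := by
    intro q
    simp only [hG]
    rw [tsum_eq_single q]
    · rw [dv_self, mul_one, Complex.norm_real, Real.norm_eq_abs, abs_of_nonneg (hc q)]
    · intro q' hq'
      rw [dv_ne (fun h => hq' (hιi h)), mul_zero]
  have hG2 : ∀ y, y ∉ Set.range ι → G y = 0 := by
    intro y hy
    simp only [hG]
    have : ∀ q, ((c q : ℝ) : ℂ) * dv y (ι q) = 0 := by
      intro q
      rw [dv_ne (fun h => hy ⟨q, h⟩), mul_zero]
    simp only [this, tsum_zero, norm_zero]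
    rw [Real.zero_rpow (by norm_num)]
  have hGs : Summable G := by
    rw [← hιi.summable_iff (fun y hy => hG2 y hy)]
    have : G ∘ ι = fun q => c q ^ (1 / 2 : ℝ) := funext hG1
    rw [this]
    exact hs
  have hGt : ∑' y, G y = S0 := by
    rw [← hιi.tsum_eq (f := G)]
    · rw [hS0]
      exact tsum_congr hG1
    · intro y hy
      by_contra hcon
      exact hy (hG2 y hcon)
  have hle : ∀ y, ‖K (dv y) (x, f)‖ ^ (1 / 2 : ℝ) ≤ A y + G y := by
    intro y
    have h1 : ‖K (dv y) (x, f)‖ ≤ A y + ‖∑' q : F, ((c q : ℝ) : ℂ) * dv y (ι q)‖ := by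
      rw [hK]
      refine (norm_add_le _ _).trans ?_
      apply add_le_add _ le_rfl
      rw [norm_neg]
      refine (norm_sum_le _ _).trans ?_
      apply Finset.sum_le_sum
      intro i _
      have e1 := dl_norm ((x, f) : (Fin d → ℤ) × F) y
      have e2 := dl_norm ((x + Pi.single i 1, f) : (Fin d → ℤ) × F) y
      have e3 := dl_norm ((x - Pi.single i 1, f) : (Fin d → ℤ) × F) y
      have n1 := norm_add_le (dv y ((x + Pi.single i 1, f) : (Fin d → ℤ) × F) - dv y (x, f))
        (dv y ((x - Pi.single i 1, f) : (Fin d → ℤ) × F) - dv y (x, f))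
      have n2 := norm_sub_le (dv y ((x + Pi.single i 1, f) : (Fin d → ℤ) × F)) (dv y (x, f))
      have n3 := norm_sub_le (dv y ((x - Pi.single i 1, f) : (Fin d → ℤ) × F)) (dv y (x, f))
      rw [e1, e2] at n2
      rw [e1, e3] at n3
      linarith
    calc ‖K (dv y) (x, f)‖ ^ (1 / 2 : ℝ) ≤
        (A y + ‖∑' q : F, ((c q : ℝ) : ℂ) * dv y (ι q)‖) ^ (1 / 2 : ℝ) :=
          Real.rpow_le_rpow (norm_nonneg _) h1 (by norm_num)
      _ ≤ A y ^ (1 / 2 : ℝ) + ‖∑' q : F, ((c q : ℝ) : ℂ) * dv y (ι q)‖ ^ (1 / 2 : ℝ) :=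
          rpow_add_half (hA0 y) (norm_nonneg _)
      _ ≤ A y + G y := add_le_add (hA1 y) le_rfl
  have hsum : Summable fun y => A y + G y := hAs.summable.add hGs
  have hfin : Summable fun y => ‖K (dv y) (x, f)‖ ^ (1 / 2 : ℝ) :=
    Summable.of_nonneg_of_le (fun y => Real.rpow_nonneg (norm_nonneg _) _) hle hsum
  refine ⟨hfin, ?_⟩
  refine (hfin.tsum_le_tsum hle hsum).trans ?_
  rw [hAs.summable.tsum_add hGs, hAs.tsum_eq, hGt, Finset.sum_const, Finset.card_univ,
    Fintype.card_fin, nsmul_eq_mul]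
  linarith

end Pool.Agent.H784.Z987.HopL
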